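import Pool.Agent.Q27.Cox.BP

/-!
# Billey-Postnikov decompositions are closed under unions and intersections

Let `(W, S)` be an arbitrary Coxeter system (`S` may be infinite) and `w ∈ W`. If `J` and `K` give
Billey-Postnikov decompositions of `w`, so do `J ∩ K` and `J ∪ K`.

The definitions are repeated here in terms of the Mathlib length function.
-/

set_option autoImplicit false

open Q27.Cox

namespace Pool.Agent.Results.MP_330ad9_al.ClosedUnderUnionInter

variable {B : Type*} {M : CoxeterMatrix B} {W : Type*} [Group W] (cs : CoxeterSystem M W)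

/-- The standard parabolic subgroup `W_J`. -/
def parabolic (J : Set B) : Subgroup W := Subgroup.closure (cs.simple '' J)

/-- The set `W^J` of minimal length representatives of the cosets `w W_J`. -/
def minRep (J : Set B) : Set W := {v | ∀ j ∈ J, cs.length v < cs.length (v * cs.simple j)}

/-- The support: the simple reflections which occur in every reduced word of `w`. -/
def support (w : W) : Set B := {i | ∀ ω : List B, cs.IsReduced ω → cs.wordProd ω = w → i ∈ ω}

/-- The left descent set. -/
def leftDescents (w : W) : Set B := {i | cs.length (cs.simple i * w) < cs.length w}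

/-- `BP(w)`: the sets `J` such that the factorisation `w = w^J w_J`, with `w^J ∈ W^J` and
`w_J ∈ W_J`, satisfies `supp (w^J) ∩ J ⊆ D_L(w_J)`. (The factorisation exists and is unique; this
is part of the theorem.) -/
def BP (w : W) : Set (Set B) :=
  {J | ∀ x ∈ minRep cs J, ∀ y ∈ parabolic cs J, w = x * y →
    support cs x ∩ J ⊆ leftDescents cs y}

variable {cs}

theorem support_eq (w : W) : support cs w = supp cs w := by
  ext i
  constructor
  · intro h
    obtain ⟨ω, h1, h2⟩ := cs.exists_isReduced w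
    exact ⟨ω, h1, h2.symm, h ω h1 h2.symm⟩
  · intro h ω h1 h2
    rw [supp_eq h1 h2] at h
    exact h

theorem mem_BP_iff (w : W) (J : Set B) : J ∈ BP cs w ↔ IsBP cs J w := by
  constructor
  · intro h
    obtain ⟨x, hx, y, hy, e⟩ := exists_decomp_R (cs := cs) J w
    refine ⟨x, hx, y, hy, e, ?_⟩
    intro i hi hiJ
    refine h x hx y hy e ⟨?_, hiJ⟩
    rw [support_eq]
    exact hi
  · rintro ⟨x, hx, y, hy, e, h⟩ x' hx' y' hy' e' i ⟨hi, hiJ⟩
    obtain ⟨h1, h2⟩ := decomp_R_unique hx hx' hy hy' (e.symm.trans e')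
    subst h1
    subst h2
    rw [support_eq] at hi
    exact h i hi hiJ

theorem result {B : Type*} {M : CoxeterMatrix B} {W : Type*} [Group W]
    (cs : CoxeterSystem M W) (w : W) :
    (∀ J : Set B, ∃! p : W × W, p.1 ∈ minRep cs J ∧ p.2 ∈ parabolic cs J ∧ w = p.1 * p.2) ∧
    ∀ J K : Set B, J ∈ BP cs w → K ∈ BP cs w → J ∩ K ∈ BP cs w ∧ J ∪ K ∈ BP cs w := by
  refine ⟨?_, ?_⟩
  · intro J
    obtain ⟨x, hx, y, hy, e⟩ := exists_decomp_R (cs := cs) J w
    refine ⟨(x, y), ⟨hx, hy, e⟩, ?_⟩
    rintro ⟨x', y'⟩ ⟨hx', hy', e'⟩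
    obtain ⟨h1, h2⟩ := decomp_R_unique hx hx' hy hy' (e.symm.trans e')
    rw [h1, h2]
  · intro J K hJ hK
    rw [mem_BP_iff] at hJ hK
    rw [mem_BP_iff, mem_BP_iff]
    exact ⟨inter_bp hJ hK, union_bp hJ hK⟩

end Pool.Agent.Results.MP_330ad9_al.ClosedUnderUnionInter
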